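import Pool.Agent.H81.GT.TargetsT

/-!
Theorem G (MP_ee74d2_an), group T: module ACS, symbols of caps.
-/

set_option autoImplicit false

namespace Pool.Agent.H34.G.ACS

open MeasureTheory Set
open scoped ENNReal NNReal RealInnerProductSpace
open Pool.Agent.H81.GT Pool.Agent.H83.LS

variable {n : ℕ}

private theorem contDiff_Bu : ContDiff ℝ (⊤ : ℕ∞) (Bu : EE n → ℝ) := by
  unfold Bu
  exact Real.smoothTransition.contDiff.comp (contDiff_const.sub (contDiff_norm_sq ℝ))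

private theorem Bu_nonneg (x : EE n) : 0 ≤ Bu x := Real.smoothTransition.nonneg _

private theorem Bu_le (x : EE n) : Bu x ≤ 1 := Real.smoothTransition.le_one _

private theorem Bu_ne {x : EE n} (h : Bu x ≠ 0) : ‖x‖ ≤ 3 := by
  by_contra hc
  push Not at hc
  refine h ?_
  unfold Bu
  refine Real.smoothTransition.zero_of_nonpos ?_
  nlinarith

private theorem contDiff_pr : ContDiff ℝ (⊤ : ℕ∞) (pr : EE (n + 1) → EE n) := by
  rw [contDiff_euclidean]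
  intro i
  unfold pr
  exact (EuclideanSpace.proj (𝕜 := ℝ) (i.castSucc : Fin (n + 1))).contDiff

private theorem norm_pr_sq (ξ : EE (n + 1)) : ‖pr ξ‖ ^ 2 = ‖ξ‖ ^ 2 - ξ (Fin.last n) ^ 2 := by
  rw [EuclideanSpace.norm_sq_eq, EuclideanSpace.norm_sq_eq, Fin.sum_univ_castSucc]
  unfold pr
  simp

theorem pf_ACS : T_ACS := by
  intro n κ s η a hκ ha hs
  obtain ⟨ha1, ha2⟩ := ha
  have hne : ∀ ξ, ac a η s ξ ≠ 0 → a ξ ≠ 0 ∧ Bu (s⁻¹ • ((al ξ)⁻¹ • pr ξ - η)) ≠ 0 := by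
    intro ξ h
    unfold ac at h
    refine ⟨left_ne_zero_of_mul h, fun h0 => right_ne_zero_of_mul h ?_⟩
    rw [h0, Complex.ofReal_zero]
  have hal : ∀ ξ : EE (n + 1), 1 / 2 ≤ ‖ξ‖ → (1 - κ) * ‖ξ‖ ≤ ξ (Fin.last n) →
      15 / 8 * ‖ξ‖ ≤ al ξ := by
    intro ξ h1 h2
    unfold al
    nlinarith
  refine ⟨⟨?_, fun ξ h => ha2 ξ (hne ξ h).1⟩, fun ξ => ?_, fun ξ h => ?_⟩
  · rw [contDiff_iff_contDiffAt]
    intro ξ
    by_cases hξ : 1 / 2 ≤ ‖ξ‖ ∧ ‖ξ‖ ≤ 2 ∧ (1 - κ) * ‖ξ‖ ≤ ξ (Fin.last n)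
    · have h0 : ξ ≠ 0 := by
        rintro rfl
        rw [norm_zero] at hξ
        linarith [hξ.1]
      have h1 : al ξ ≠ 0 := by
        have := hal ξ hξ.1 hξ.2.2
        have := hξ.1
        intro h
        linarith
      have h2 : ContDiffAt ℝ (⊤ : ℕ∞) (al : EE (n + 1) → ℝ) ξ := by
        unfold al
        exact (contDiffAt_norm ℝ h0).add
          (EuclideanSpace.proj (𝕜 := ℝ) (Fin.last n)).contDiff.contDiffAt
      have h3a : ContDiffAt ℝ (⊤ : ℕ∞) (fun ξ : EE (n + 1) => (al ξ)⁻¹) ξ := h2.inv h1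
      have h3b : ContDiffAt ℝ (⊤ : ℕ∞) (fun ξ : EE (n + 1) => (al ξ)⁻¹ • pr ξ) ξ :=
        h3a.smul contDiff_pr.contDiffAt
      have h3c : ContDiffAt ℝ (⊤ : ℕ∞) (fun ξ : EE (n + 1) => (al ξ)⁻¹ • pr ξ - η) ξ :=
        h3b.sub contDiffAt_const
      have h3 : ContDiffAt ℝ (⊤ : ℕ∞) (fun ξ : EE (n + 1) => s⁻¹ • ((al ξ)⁻¹ • pr ξ - η)) ξ :=
        h3c.const_smul s⁻¹
      have h4 : ContDiffAt ℝ (⊤ : ℕ∞) (fun ξ : EE (n + 1) => Bu (s⁻¹ • ((al ξ)⁻¹ • pr ξ - η))) ξ :=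
        contDiff_Bu.contDiffAt.comp ξ h3
      have h5 : ContDiffAt ℝ (⊤ : ℕ∞)
          (fun ξ : EE (n + 1) => ((Bu (s⁻¹ • ((al ξ)⁻¹ • pr ξ - η)) : ℝ) : ℂ)) ξ :=
        Complex.ofRealCLM.contDiff.contDiffAt.comp ξ h4
      exact ha1.contDiffAt.mul h5
    · have hopen : IsOpen {ξ : EE (n + 1) | ¬ (1 / 2 ≤ ‖ξ‖ ∧ ‖ξ‖ ≤ 2 ∧
          (1 - κ) * ‖ξ‖ ≤ ξ (Fin.last n))} := by
        have hc : Continuous fun ξ : EE (n + 1) => ξ (Fin.last n) :=
          (EuclideanSpace.proj (𝕜 := ℝ) (Fin.last n)).continuous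
        have h1 : IsClosed {ξ : EE (n + 1) | 1 / 2 ≤ ‖ξ‖ ∧ ‖ξ‖ ≤ 2 ∧
            (1 - κ) * ‖ξ‖ ≤ ξ (Fin.last n)} :=
          (isClosed_le continuous_const continuous_norm).inter
            ((isClosed_le continuous_norm continuous_const).inter
              (isClosed_le (continuous_const.mul continuous_norm) hc))
        exact h1.isOpen_compl
      have hev : (ac a η s) =ᶠ[nhds ξ] fun _ => (0 : ℂ) := by
        filter_upwards [hopen.mem_nhds hξ] with ζ hζ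
        have h0 : a ζ = 0 := by
          by_contra hc
          exact hζ (ha2 ζ hc)
        unfold ac
        rw [h0, zero_mul]
      exact contDiffAt_const.congr_of_eventuallyEq hev
  · unfold ac
    rw [norm_mul, Complex.norm_real, Real.norm_of_nonneg (Bu_nonneg _)]
    exact mul_le_of_le_one_right (norm_nonneg _) (Bu_le _)
  · obtain ⟨h1, h2⟩ := hne ξ h
    obtain ⟨h3, h4, h5⟩ := ha2 ξ h1
    have h6 := hal ξ h3 h5
    have h7 : 0 < al ξ := by linarith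
    refine ⟨?_, ?_⟩
    · have h8 := Bu_ne h2
      rw [norm_smul, norm_inv, Real.norm_of_nonneg hs.le, inv_mul_le_iff₀ hs] at h8
      linarith
    · rw [norm_smul, norm_inv, Real.norm_of_nonneg h7.le, inv_mul_le_iff₀ h7]
      have h8 := norm_pr_sq ξ
      have h9 : 7 / 8 * ‖ξ‖ ≤ ξ (Fin.last n) := by nlinarith
      have h10 : (7 / 8 * ‖ξ‖) ^ 2 ≤ ξ (Fin.last n) ^ 2 := pow_le_pow_left₀ (by positivity) h9 2
      have h11 : ‖pr ξ‖ ^ 2 ≤ (81 / 160 * ‖ξ‖) ^ 2 := by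
        rw [h8]
        nlinarith [sq_nonneg ‖ξ‖]
      have h12 : ‖pr ξ‖ ≤ 81 / 160 * ‖ξ‖ := by
        refine abs_le_of_sq_le_sq' h11 (by positivity) |>.2
      linarith

end Pool.Agent.H34.G.ACS
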