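import Pool.Agent.H83.G.Targets2

/-!
Theorem G (MP_ee74d2_an): module AMU, amplitudes are bounded by `A`.
-/

set_option autoImplicit false

namespace Pool.Agent.H34.G.AMU

open MeasureTheory Set Pool.Agent.H83.G
open scoped ENNReal NNReal RealInnerProductSpace

private theorem TP_const {m : ℕ} (C : ℝ) (φ : E m → ℂ) (η : E m) (s : ℝ) (G : Z m → ℂ) (z : Z m) :
    TP (fun x => (C : ℂ) * φ x) η s G z = (C : ℂ) * TP φ η s G z := by
  unfold TP TF cp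
  rw [← integral_const_mul]
  refine integral_congr_ae (Filter.Eventually.of_forall fun ζ => ?_)
  simp only
  ring

private theorem sR_pos {R : ℝ} (hR : 1 ≤ R) : 0 < sR R := by
  unfold sR
  exact inv_pos.2 (Real.sqrt_pos.2 (by linarith))

private theorem sR_le {R : ℝ} (hR : 1 ≤ R) : sR R ≤ 1 := by
  unfold sR
  exact inv_le_one_of_one_le₀ (Real.one_le_sqrt.2 hR)

private theorem sR_sq {R : ℝ} (hR : 1 ≤ R) : R * sR R ^ 2 = 1 := by
  unfold sR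
  rw [inv_pow, Real.sq_sqrt (by linarith)]
  exact mul_inv_cancel₀ (by linarith)

theorem pf_AMU (hAVG : T_AVG) (hPUB : T_PUB) (hSCH : T_SCH) (hCPS : T_CPS) : T_AMU := by
  intro m L N β δ hβ hδ hN
  obtain ⟨C, hC⟩ := hAVG m N hN
  obtain ⟨B, hB1, hB⟩ := hPUB m L β hβ
  have hB0 : 0 < B := by linarith
  have hC0 : (0 : ℝ) ≤ C := C.2
  refine ⟨(C + 1) * B, by positivity, fun κ R A G W hκ0 hκ hR hA hG => ?_⟩
  obtain ⟨hG1, hG2, hG3⟩ := hG
  have hs := sR_pos hR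
  have hs1 := sR_le hR
  have hs2 := sR_sq hR
  have hR0 : 0 < R := by linarith
  obtain ⟨s, hse⟩ : ∃ s, s = sR R := ⟨_, rfl⟩
  rw [← hse] at hs hs1 hs2
  obtain ⟨η, hη⟩ : ∃ η : E m, η = ctr s W.1 := ⟨_, rfl⟩
  obtain ⟨c, hc⟩ : ∃ c : ℝ, c = R ^ (-δ) := ⟨_, rfl⟩
  have hc0 : 0 < c := by
    rw [hc]
    exact Real.rpow_pos_of_pos hR0 _
  have hc1 : c ≤ 1 := by
    rw [hc]
    exact Real.rpow_le_one_of_one_le_of_nonpos hR (by linarith)
  have hTC : TC (fun ζ => cp β η s ζ * G ζ) := by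
    refine hCPS m β η s G hβ.1 hs hG1 fun ζ hζ => ?_
    have := (hG2 ζ hζ).1
    linarith
  have hcont : Continuous (TP β η s G) := (hSCH m _ hTC).1
  have hFm : Measurable fun z => ‖TP β η s G z‖ₑ ^ 2 := hcont.enorm.measurable.pow_const 2
  have hβφ : ∀ z, TP β η s G z = (B : ℂ) * TP (fun x => ((B⁻¹ : ℝ) : ℂ) * β x) η s G z := by
    intro z
    rw [TP_const, ← mul_assoc, ← Complex.ofReal_mul, mul_inv_cancel₀ hB0.ne', Complex.ofReal_one,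
      one_mul]
  have hnB : ‖(B : ℂ)‖ₑ = ENNReal.ofReal B := by
    rw [← ofReal_norm, Complex.norm_real, Real.norm_of_nonneg hB0.le]
  have hpl : ∀ z₁, ∫⁻ z in pl η s 1 z₁, ‖TP β η s G z‖ₑ ^ 2 ≤
      ENNReal.ofReal (B ^ 2) * ENNReal.ofReal (A ^ 2 * (s⁻¹) ^ (m + 2)) := by
    intro z₁
    have h1 := hG3 _ hB η s 1 z₁ hs hs1 le_rfl hs2.ge
    rw [hs2, div_one, one_pow, mul_one, one_div] at h1
    calc ∫⁻ z in pl η s 1 z₁, ‖TP β η s G z‖ₑ ^ 2 =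
        ∫⁻ z in pl η s 1 z₁, ENNReal.ofReal (B ^ 2) *
          ‖TP (fun x => ((B⁻¹ : ℝ) : ℂ) * β x) η s G z‖ₑ ^ 2 := by
          refine lintegral_congr fun z => ?_
          rw [hβφ z, enorm_mul, mul_pow, hnB, ← ENNReal.ofReal_pow hB0.le]
      _ = ENNReal.ofReal (B ^ 2) * ∫⁻ z in pl η s 1 z₁,
          ‖TP (fun x => ((B⁻¹ : ℝ) : ℂ) * β x) η s G z‖ₑ ^ 2 :=
          lintegral_const_mul' _ _ ENNReal.ofReal_ne_top
      _ ≤ _ := mul_le_mul_right h1 _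
  have h2 := hC (fun z => ‖TP β η s G z‖ₑ ^ 2) η s 1 c (zc W.2) _ hFm hs one_pos hc0 hc1 hpl
  have hk : (R ^ (-(δ * ((m : ℝ) + 2)))) = c ^ (m + 2) := by
    rw [hc, ← Real.rpow_natCast, ← Real.rpow_mul hR0.le]
    congr 1
    push_cast
    ring
  have hal : al2 N β R δ G W ≤ ENNReal.ofReal (C * (B ^ 2 * A ^ 2)) := by
    have h3 : al2 N β R δ G W = ENNReal.ofReal (c ^ (m + 2) * s ^ (m + 2)) *
        ∫⁻ z, ‖TP β η s G z‖ₑ ^ 2 * ENNReal.ofReal (wt N (c • (1 : ℝ)⁻¹ • Lo η s z - zc W.2)) := by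
      unfold al2 fc
      rw [hk, ← hse, ← hη, ← hc]
      simp only [inv_one, one_smul]
    rw [h3]
    refine (mul_le_mul_right h2 _).trans (le_of_eq ?_)
    have h4 : (C : ℝ≥0∞) = ENNReal.ofReal C := (ENNReal.ofReal_coe_nnreal).symm
    rw [h4, ← ENNReal.ofReal_mul hC0, ← ENNReal.ofReal_mul (by positivity),
      ← ENNReal.ofReal_mul (by positivity), ← ENNReal.ofReal_mul (by positivity)]
    congr 1
    have h5 : c ^ (m + 2) * (c⁻¹) ^ (m + 2) = 1 := by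
      rw [← mul_pow, mul_inv_cancel₀ hc0.ne', one_pow]
    have h6 : s ^ (m + 2) * (s⁻¹) ^ (m + 2) = 1 := by
      rw [← mul_pow, mul_inv_cancel₀ hs.ne', one_pow]
    calc c ^ (m + 2) * s ^ (m + 2) * (C * (c⁻¹) ^ (m + 2) * (B ^ 2 * (A ^ 2 * (s⁻¹) ^ (m + 2)))) =
        (c ^ (m + 2) * (c⁻¹) ^ (m + 2)) * (s ^ (m + 2) * (s⁻¹) ^ (m + 2)) *
          (C * (B ^ 2 * A ^ 2)) := by ring
      _ = C * (B ^ 2 * A ^ 2) := by rw [h5, h6, one_mul, one_mul]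
  have hfin : al2 N β R δ G W ≠ ⊤ := ne_top_of_le_ne_top ENNReal.ofReal_ne_top hal
  have hsq : al N β R δ G W ^ 2 = (al2 N β R δ G W).toReal := by
    unfold al
    exact Real.sq_sqrt ENNReal.toReal_nonneg
  refine ⟨?_, ?_⟩
  · have h7 : (al2 N β R δ G W).toReal ≤ C * (B ^ 2 * A ^ 2) :=
      ENNReal.toReal_le_of_le_ofReal (by positivity) hal
    refine abs_le_of_sq_le_sq' ?_ (by positivity) |>.2
    rw [hsq]
    refine h7.trans ?_
    have h8 : (C : ℝ) ≤ (C + 1) ^ 2 := by nlinarith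
    calc (C : ℝ) * (B ^ 2 * A ^ 2) ≤ (C + 1) ^ 2 * (B ^ 2 * A ^ 2) :=
          mul_le_mul_of_nonneg_right h8 (by positivity)
      _ = _ := by ring
  · rw [hsq, ENNReal.ofReal_toReal hfin]

end Pool.Agent.H34.G.AMU
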