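import Pool.Agent.H83.G.Targets1

/-!
Theorem G (MP_ee74d2_an): module AVG, from sharp planks to weights.
-/

set_option autoImplicit false

namespace Pool.Agent.H34.G.AVG

open MeasureTheory Set Pool.Agent.H83.G
open scoped ENNReal NNReal RealInnerProductSpace

private theorem finrank_Z (m : ℕ) : Module.finrank ℝ (Z m) = m + 2 := by
  unfold Z
  rw [Module.finrank_prod, Module.finrank_prod, Module.finrank_self]
  have : Module.finrank ℝ (E m) = m := finrank_euclideanSpace_fin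
  rw [this]
  omega

private theorem haar_Z (m : ℕ) : (volume : Measure (Z m)).IsAddHaarMeasure := by
  have h1 : (volume : Measure (E m × ℝ)).IsAddHaarMeasure :=
    Measure.prod.instIsAddHaarMeasure (volume : Measure (E m)) (volume : Measure ℝ)
  exact Measure.prod.instIsAddHaarMeasure (volume : Measure ℝ) (volume : Measure (E m × ℝ))

private theorem neg_Z (m : ℕ) : (volume : Measure (Z m)).IsNegInvariant := by
  have := haar_Z m
  have : (volume : Measure (Z m)).Regular := inferInstance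
  infer_instance

/-- The volume of a plank. -/
private theorem vol_pl (hLOI : T_LOI) {m : ℕ} (η : E m) {s r : ℝ} (hs : 0 < s) (hr : 0 < r) :
    ∫⁻ z : Z m, {u : Z m | ‖Lo η s u‖ ≤ r}.indicator (fun _ => (1 : ℝ≥0∞)) z =
      ENNReal.ofReal ((s⁻¹) ^ (m + 2)) * (ENNReal.ofReal (r ^ (m + 2)) *
        volume (Metric.closedBall (0 : Z m) 1)) := by
  have := haar_Z m
  have h1 := (hLOI m η s hs).1 ((Metric.closedBall (0 : Z m) r).indicator fun _ => (1 : ℝ≥0∞))
  have h2 : ∀ z : Z m, {u : Z m | ‖Lo η s u‖ ≤ r}.indicator (fun _ => (1 : ℝ≥0∞)) z =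
      (Metric.closedBall (0 : Z m) r).indicator (fun _ => (1 : ℝ≥0∞)) (Lo η s z) := by
    intro z
    unfold Set.indicator
    simp only [Set.mem_ofPred_eq, mem_closedBall_zero_iff]
  rw [lintegral_congr h2, h1, lintegral_indicator Metric.isClosed_closedBall.measurableSet,
    setLIntegral_const, one_mul, Measure.addHaar_closedBall' _ _ hr.le, finrank_Z]

theorem pf_AVG (hLOA : T_LOA) (hLOI : T_LOI) (hWT1 : T_WT1) (hWT2 : T_WT2) : T_AVG := by
  intro m N hN
  have := haar_Z m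
  have := neg_Z m
  obtain ⟨C, hC, -⟩ := hWT2 m N hN
  obtain ⟨w1, w2, w3, -⟩ := hWT1 m N
  obtain ⟨b, hb⟩ : ∃ b : ℝ≥0∞, b = volume (Metric.closedBall (0 : Z m) 1) := ⟨_, rfl⟩
  have hb0 : b ≠ 0 := by
    rw [hb]
    exact (Metric.measure_closedBall_pos volume _ one_pos).ne'
  have hbt : b ≠ ⊤ := by
    rw [hb]
    exact measure_closedBall_lt_top.ne
  refine ⟨2 ^ N * C * b.toNNReal⁻¹, fun F η s r c x S hF hs hr hc hc1 hS => ?_⟩
  obtain ⟨hLo, -, -, -, hLc, -⟩ := hLOI m η s hs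
  have hcont : Continuous (Lo η s : Z m → Z m) := hLc.continuous
  set K : Set (Z m) := {u : Z m | ‖Lo η s u‖ ≤ r} with hK
  have hKm : MeasurableSet K := (isClosed_le hcont.norm continuous_const).measurableSet
  set I : Z m → ℝ≥0∞ := K.indicator fun _ => (1 : ℝ≥0∞) with hI
  have hIm : Measurable I := measurable_const.indicator hKm
  set g : Z m → ℝ≥0∞ := fun z => ENNReal.ofReal (wt N (c • r⁻¹ • Lo η s z - x)) with hg
  have hgm : Measurable g := by
    refine (ENNReal.continuous_ofReal.comp (w2.comp ?_)).measurable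
    exact ((hcont.const_smul r⁻¹).const_smul c).sub continuous_const
  -- the double integral
  have hsw : ∫⁻ z₁, ∫⁻ z, g z₁ * (I (z - z₁) * F z) = ∫⁻ z, ∫⁻ z₁, g z₁ * (I (z - z₁) * F z) := by
    refine lintegral_lintegral_swap (Measurable.aemeasurable ?_)
    refine (hgm.comp measurable_fst).mul ((hIm.comp ?_).mul (hF.comp measurable_snd))
    exact measurable_snd.sub measurable_fst
  have hup : ∫⁻ z₁, ∫⁻ z, g z₁ * (I (z - z₁) * F z) ≤
      S * (ENNReal.ofReal ((s⁻¹) ^ (m + 2)) * (C * ENNReal.ofReal (((c * r⁻¹)⁻¹) ^ (m + 2)))) := by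
    have h1 : ∀ z₁, ∫⁻ z, g z₁ * (I (z - z₁) * F z) ≤ S * g z₁ := by
      intro z₁
      have h0 : Measurable fun z => I (z - z₁) * F z := (hIm.comp (measurable_id.sub_const z₁)).mul hF
      rw [lintegral_const_mul _ h0, mul_comm]
      refine mul_le_mul_left ?_ _
      refine le_trans (le_of_eq ?_) (hS z₁)
      rw [← lintegral_indicator]
      · refine lintegral_congr fun z => ?_
        by_cases hz : z - z₁ ∈ K
        · rw [hI, Set.indicator_of_mem hz, one_mul, Set.indicator_of_mem]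
          exact hz
        · rw [hI, Set.indicator_of_notMem hz, zero_mul, Set.indicator_of_notMem]
          exact hz
      · exact (isClosed_le (hcont.comp (continuous_id.sub continuous_const)).norm
          continuous_const).measurableSet
    refine (lintegral_mono h1).trans ?_
    rw [lintegral_const_mul _ hgm]
    refine mul_le_mul_right ?_ _
    have h2 : ∫⁻ z, g z = ENNReal.ofReal ((s⁻¹) ^ (m + 2)) *
        ∫⁻ z : Z m, ENNReal.ofReal (wt N (c • r⁻¹ • z - x)) :=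
      hLo fun z => ENNReal.ofReal (wt N (c • r⁻¹ • z - x))
    rw [h2]
    refine mul_le_mul_right ?_ _
    have h3 := hC (c * r⁻¹) x (by positivity)
    refine le_trans (le_of_eq ?_) h3
    refine lintegral_congr fun z => ?_
    rw [smul_smul]
  have hlow : ∀ z, ENNReal.ofReal ((2 ^ N)⁻¹) * (ENNReal.ofReal ((s⁻¹) ^ (m + 2)) *
      (ENNReal.ofReal (r ^ (m + 2)) * b)) * (F z * g z) ≤ ∫⁻ z₁, g z₁ * (I (z - z₁) * F z) := by
    intro z
    have h1 : ∀ z₁, ENNReal.ofReal ((2 ^ N)⁻¹) * (F z * g z) * I (z - z₁) ≤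
        g z₁ * (I (z - z₁) * F z) := by
      intro z₁
      by_cases hz : z - z₁ ∈ K
      · rw [hI, Set.indicator_of_mem hz, one_mul, mul_one]
        have h2 : wt N (c • r⁻¹ • Lo η s z - x) * (2 ^ N)⁻¹ ≤ wt N (c • r⁻¹ • Lo η s z₁ - x) := by
          have h3 : c • r⁻¹ • Lo η s z₁ - x = (c • r⁻¹ • Lo η s z - x) +
              (-(c • r⁻¹ • Lo η s (z - z₁))) := by
            rw [((hLOA m).1 η s z z₁).2.1, smul_sub, smul_sub]
            abel
          rw [h3]
          refine le_trans ?_ (w3 _ _)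
          refine mul_le_mul_of_nonneg_left ?_ (w1 _).1.le
          unfold wt
          refine inv_anti₀ (by positivity) (pow_le_pow_left₀ (by positivity) ?_ N)
          rw [norm_neg, norm_smul, norm_smul, Real.norm_of_nonneg hc.le,
            Real.norm_of_nonneg (inv_nonneg.2 hr.le)]
          have h4 : r⁻¹ * ‖Lo η s (z - z₁)‖ ≤ 1 := by
            rw [inv_mul_le_iff₀ hr, mul_one]
            exact hz
          have h5 : c * (r⁻¹ * ‖Lo η s (z - z₁)‖) ≤ 1 * 1 :=
            mul_le_mul hc1 h4 (by positivity) zero_le_one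
          linarith
        have h6 : g z * ENNReal.ofReal ((2 ^ N)⁻¹) ≤ g z₁ := by
          simp only [hg]
          rw [← ENNReal.ofReal_mul (w1 _).1.le]
          exact ENNReal.ofReal_le_ofReal h2
        calc ENNReal.ofReal ((2 ^ N)⁻¹) * (F z * g z) = F z * (g z * ENNReal.ofReal ((2 ^ N)⁻¹)) := by
              ring
          _ ≤ F z * g z₁ := mul_le_mul_right h6 _
          _ = g z₁ * F z := mul_comm _ _
      · rw [hI, Set.indicator_of_notMem hz, mul_zero]
        exact bot_le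
    refine le_trans (le_of_eq ?_) (lintegral_mono h1)
    have h0 : Measurable fun z₁ => I (z - z₁) := hIm.comp (measurable_const.sub measurable_id)
    rw [lintegral_const_mul _ h0,
      lintegral_sub_left_eq_self I z, hI, hK, vol_pl hLOI η hs hr, hb]
    ring
  have hfin : ENNReal.ofReal ((2 ^ N)⁻¹) * (ENNReal.ofReal ((s⁻¹) ^ (m + 2)) *
      (ENNReal.ofReal (r ^ (m + 2)) * b)) * ∫⁻ z, F z * g z ≤
      S * (ENNReal.ofReal ((s⁻¹) ^ (m + 2)) * (C * ENNReal.ofReal (((c * r⁻¹)⁻¹) ^ (m + 2)))) := by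
    have h0 : Measurable fun z => F z * g z := hF.mul hgm
    rw [← lintegral_const_mul _ h0]
    exact ((lintegral_mono hlow).trans hsw.ge).trans hup
  -- division
  obtain ⟨J, hJ⟩ : ∃ J : ℝ≥0∞, J = ENNReal.ofReal ((s⁻¹) ^ (m + 2)) * ENNReal.ofReal (r ^ (m + 2)) :=
    ⟨_, rfl⟩
  have hJ0 : J ≠ 0 := by
    rw [hJ]
    exact mul_ne_zero (ENNReal.ofReal_pos.2 (by positivity)).ne'
      (ENNReal.ofReal_pos.2 (by positivity)).ne'
  have hJt : J ≠ ⊤ := by
    rw [hJ]
    exact ENNReal.mul_ne_top ENNReal.ofReal_ne_top ENNReal.ofReal_ne_top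
  have h7 : ENNReal.ofReal (((c * r⁻¹)⁻¹) ^ (m + 2)) =
      ENNReal.ofReal ((c⁻¹) ^ (m + 2)) * ENNReal.ofReal (r ^ (m + 2)) := by
    rw [← ENNReal.ofReal_mul (by positivity), ← mul_pow, mul_inv, inv_inv]
  have h8 : J * (ENNReal.ofReal ((2 ^ N)⁻¹) * b * ∫⁻ z, F z * g z) ≤
      J * (C * ENNReal.ofReal ((c⁻¹) ^ (m + 2)) * S) := by
    calc J * (ENNReal.ofReal ((2 ^ N)⁻¹) * b * ∫⁻ z, F z * g z) =
        ENNReal.ofReal ((2 ^ N)⁻¹) * (ENNReal.ofReal ((s⁻¹) ^ (m + 2)) *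
          (ENNReal.ofReal (r ^ (m + 2)) * b)) * ∫⁻ z, F z * g z := by
          rw [hJ]
          ring
      _ ≤ _ := hfin
      _ = J * (C * ENNReal.ofReal ((c⁻¹) ^ (m + 2)) * S) := by
          rw [hJ, h7]
          ring
  rw [ENNReal.mul_le_mul_iff_right hJ0 hJt] at h8
  have h9 : ENNReal.ofReal ((2 ^ N)⁻¹) = ((2 : ℝ≥0∞) ^ N)⁻¹ := by
    rw [ENNReal.ofReal_inv_of_pos (by positivity), ENNReal.ofReal_pow (by norm_num)]
    norm_num
  have h10 : ((2 ^ N * C * b.toNNReal⁻¹ : ℝ≥0) : ℝ≥0∞) = 2 ^ N * C * b⁻¹ := by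
    rw [ENNReal.coe_mul, ENNReal.coe_mul, ENNReal.coe_pow, ENNReal.coe_inv, ENNReal.coe_toNNReal hbt]
    · rfl
    · intro h
      rw [ENNReal.toNNReal_eq_zero_iff] at h
      exact h.elim hb0 hbt
  rw [h10]
  have h11 : ∫⁻ z, F z * g z = 2 ^ N * b⁻¹ * (ENNReal.ofReal ((2 ^ N)⁻¹) * b * ∫⁻ z, F z * g z) := by
    have e1 : (2 : ℝ≥0∞) ^ N * ((2 : ℝ≥0∞) ^ N)⁻¹ = 1 :=
      ENNReal.mul_inv_cancel (pow_ne_zero _ (by norm_num)) (ENNReal.pow_ne_top (by norm_num))
    have e2 : b⁻¹ * b = 1 := ENNReal.inv_mul_cancel hb0 hbt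
    rw [h9]
    calc ∫⁻ z, F z * g z = 1 * 1 * ∫⁻ z, F z * g z := by rw [one_mul, one_mul]
      _ = ((2 : ℝ≥0∞) ^ N * ((2 : ℝ≥0∞) ^ N)⁻¹) * (b⁻¹ * b) * ∫⁻ z, F z * g z := by rw [e1, e2]
      _ = _ := by ring
  change ∫⁻ z, F z * g z ≤ _
  rw [h11]
  calc 2 ^ N * b⁻¹ * (ENNReal.ofReal ((2 ^ N)⁻¹) * b * ∫⁻ z, F z * g z) ≤
      2 ^ N * b⁻¹ * (C * ENNReal.ofReal ((c⁻¹) ^ (m + 2)) * S) := mul_le_mul_right h8 _
    _ = _ := by ring

end Pool.Agent.H34.G.AVG
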