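import Pool.Agent.H81.GT.TargetsT

/-!
Theorem G (MP_ee74d2_an), group T: module TRP, transport of a plank.
-/

set_option autoImplicit false

namespace Pool.Agent.H34.G.TRP

open MeasureTheory Set
open scoped ENNReal NNReal RealInnerProductSpace
open Pool.Agent.H81.GT Pool.Agent.H83.LS
open Pool.Agent.H83.G (Z pl Lo)

private theorem Qz_add {n : ℕ} (u v : Z n) (θ : EE n) : Qz (u + v) θ = Qz u θ + Qz v θ := by
  unfold Qz
  simp only [Prod.fst_add, Prod.snd_add, inner_add_left]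
  ring

private theorem Yz_add {n : ℕ} (u v : Z n) (θ : EE n) : Yz (u + v) θ = Yz u θ + Yz v θ := by
  unfold Yz
  simp only [Prod.snd_add, Prod.fst_add, mul_add, add_smul]
  abel

theorem pf_TRP (hPOW : T_POW) (hLOA : Pool.Agent.H83.G.T_LOA) (hLOB : Pool.Agent.H83.G.T_LOB) :
    T_TRP := by
  intro n
  obtain ⟨C, hC0, hC⟩ := hPOW n
  refine ⟨129 + C, by linarith, fun s r ρ η θ z₁ z z' z₀ hs hs1 hr hρ hθ hθη hz hz' ht ht0 hW => ?_⟩
  have hr0 : 0 < r := by linarith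
  have hρ0 : 0 < ρ := by linarith
  have h1 : ‖Lo η s (z' - z)‖ ≤ 2 * r := by
    have h2 : z' - z = (z' - z₁) - (z - z₁) := by abel
    rw [h2, ((hLOA n).1 η s (z' - z₁) (z - z₁)).2.1]
    refine (norm_sub_le _ _).trans ?_
    have h3 : ‖Lo η s (z - z₁)‖ ≤ r := hz
    have h4 : ‖Lo η s (z' - z₁)‖ ≤ r := hz'
    linarith
  have h2 : ‖Lo θ s (z' - z)‖ ≤ 128 * r := by
    have h3 := (hLOB n 7 (by norm_num)).2.2.1 η θ s s (z' - z) hs le_rfl hθη
    refine h3.trans ?_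
    have h4 : (1 + 7 : ℝ) ^ 2 * ‖Lo η s (z' - z)‖ ≤ (1 + 7) ^ 2 * (2 * r) :=
      mul_le_mul_of_nonneg_left h1 (by norm_num)
    linarith
  have h3 : |Qz (z' - z) θ| ≤ 128 * r := by
    refine le_trans ?_ h2
    have h4 : ‖(Lo θ s (z' - z)).1‖ ≤ ‖Lo θ s (z' - z)‖ := norm_fst_le _
    exact h4
  have h4 : ‖Yz (z' - z) θ‖ ≤ 128 * (r / s) := by
    have h5 : ‖(Lo θ s (z' - z)).2.1‖ ≤ ‖Lo θ s (z' - z)‖ :=
      (norm_fst_le _).trans (norm_snd_le _)
    have h6 : (Lo θ s (z' - z)).2.1 = s • Yz (z' - z) θ := rfl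
    rw [h6, norm_smul, Real.norm_of_nonneg hs.le] at h5
    rw [mul_div_assoc', le_div_iff₀ hs, mul_comm]
    exact h5.trans h2
  have hsg : 0 ≤ sg s (z - z₀).2.2 * ‖Yz (z - z₀) θ‖ := by
    unfold sg
    positivity
  have h5 : |Qz (z - z₀) θ| ≤ ρ := by
    refine le_trans ?_ hW
    unfold Wz
    linarith [abs_nonneg (Qz (z - z₀) θ)]
  have hW0 : 0 ≤ Wz s (z - z₀) θ := by
    unfold Wz
    have := abs_nonneg (Qz (z - z₀) θ)
    linarith
  have htz : tz (z - z₀) = tz z := by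
    have h6 : tz (z - z₀) = tz z - tz z₀ := by
      unfold tz
      simp only [Prod.fst_sub, Prod.snd_sub]
      ring
    rw [h6, ht0, sub_zero]
  have h6 : ‖Yz (z - z₀) θ‖ ≤ C * ρ ^ 2 * (s⁻¹ + Real.sqrt |tz z|) := by
    have h7 := (hC s (z - z₀) θ hs hs1 hθ).2
    rw [htz] at h7
    refine h7.trans ?_
    have h8 : Wz s (z - z₀) θ ^ 2 ≤ ρ ^ 2 := pow_le_pow_left₀ hW0 hW 2
    have h9 : 0 ≤ s⁻¹ + Real.sqrt |tz z| := by positivity
    exact mul_le_mul_of_nonneg_right (mul_le_mul_of_nonneg_left h8 hC0.le) h9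
  have h7 : z' - z₀ = (z' - z) + (z - z₀) := by abel
  refine ⟨?_, ?_⟩
  · rw [h7, Qz_add]
    refine (abs_add_le _ _).trans ?_
    have h8 : r ≤ ρ * r := le_mul_of_one_le_left hr0.le hρ
    have h9 : ρ ≤ ρ * r := le_mul_of_one_le_right hρ0.le hr
    have h10 : 0 ≤ C * ρ * r := by positivity
    calc |Qz (z' - z) θ| + |Qz (z - z₀) θ| ≤ 128 * r + ρ := add_le_add h3 h5
      _ ≤ 128 * (ρ * r) + ρ * r := by linarith
      _ ≤ (129 + C) * ρ * r := by linarith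
  · rw [h7, Yz_add]
    refine (norm_add_le _ _).trans ?_
    have h8 : (1 : ℝ) ≤ ρ ^ 2 := one_le_pow₀ hρ
    have hq : 0 ≤ Real.sqrt |tz z| := Real.sqrt_nonneg _
    have h9 : s⁻¹ ≤ r / s := by
      rw [div_eq_mul_inv]
      exact le_mul_of_one_le_left (inv_nonneg.2 hs.le) hr
    have h10 : 0 ≤ r / s := by positivity
    have h11 : r / s ≤ ρ ^ 2 * (r / s + Real.sqrt |tz z|) := by
      calc r / s ≤ 1 * (r / s + Real.sqrt |tz z|) := by linarith
        _ ≤ _ := mul_le_mul_of_nonneg_right h8 (by linarith)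
    have h12 : C * ρ ^ 2 * (s⁻¹ + Real.sqrt |tz z|) ≤ C * ρ ^ 2 * (r / s + Real.sqrt |tz z|) :=
      mul_le_mul_of_nonneg_left (by linarith) (by positivity)
    have h13 : 0 ≤ ρ ^ 2 * (r / s + Real.sqrt |tz z|) := by positivity
    calc ‖Yz (z' - z) θ‖ + ‖Yz (z - z₀) θ‖ ≤
        128 * (ρ ^ 2 * (r / s + Real.sqrt |tz z|)) + C * ρ ^ 2 * (r / s + Real.sqrt |tz z|) := by
          linarith
      _ ≤ (129 + C) * ρ ^ 2 * (r / s + Real.sqrt |tz z|) := by linarith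

end Pool.Agent.H34.G.TRP
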